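import Pool.Agent.H72.NU.Main
import Pool.Agent.H21.CG.Df
import Pool.Agent.H30.CP.Bins
import Pool.Agent.H30.CP.BinsZ

/-!
# [H48 ST CELL] cells hit by primes with probability `13/50 - η`, at a fixed place, elements in arbitrary coprime classes

From the uniform measure theorem `med_uniform` (H72/NU), at one large `x`; all other shifts are killed (`killL`).
-/

set_option autoImplicit false

namespace Pool.Agent.H48.ST

open Finset Filter Pool.Agent.H30.CP Pool.Agent.H92.MM Pool.Agent.H72.NU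

/-- the Chinese remainder theorem for finitely many primes -/
theorem crtP (Q b₀ : ℕ) (P : Finset ℕ) (hP : ∀ p ∈ P, p.Prime ∧ ¬ p ∣ Q) (a : ℕ → ℕ) :
    ∃ b : ℕ, b ≡ b₀ [MOD Q] ∧ ∀ p ∈ P, b ≡ a p [MOD p] := by
  classical
  have key : ∀ P : Finset ℕ, (∀ p ∈ P, p.Prime ∧ ¬ p ∣ Q) →
      ∃ b : ℕ, b ≡ b₀ [MOD Q] ∧ ∀ p ∈ P, b ≡ a p [MOD p] := by
    intro P
    induction P using Finset.induction_on with
    | empty => exact fun _ => ⟨b₀, Nat.ModEq.refl _, by simp⟩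
    | insert q P hq ih =>
      intro hP
      obtain ⟨b, hb1, hb2⟩ := ih fun p hp => hP p (mem_insert_of_mem hp)
      have hqp := (hP q (mem_insert_self _ _)).1
      have hqQ := (hP q (mem_insert_self _ _)).2
      have hcop : Nat.Coprime (Q * ∏ p ∈ P, p) q := by
        refine Nat.Coprime.mul_left ?_ (Nat.Coprime.prod_left fun p hp => ?_)
        · exact ((Nat.Prime.coprime_iff_not_dvd hqp).2 hqQ).symm
        · exact (Nat.coprime_primes (hP p (mem_insert_of_mem hp)).1 hqp).2 fun h => hq (h ▸ hp)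
      obtain ⟨b', h1, h2⟩ := Nat.chineseRemainder hcop b (a q)
      refine ⟨b', (h1.of_dvd (Dvd.intro _ rfl)).trans hb1, fun p hp => ?_⟩
      rcases mem_insert.1 hp with h | h
      · rw [h]
        exact h2
      · exact (h1.of_dvd ((Finset.dvd_prod_of_mem (fun p => p) h).mul_left Q)).trans (hb2 p h)
  exact key P hP

theorem primorial_dvd_mul (Q w : ℕ) :
    primorial w ∣ Q * ∏ p ∈ (range (w + 1)).filter (fun p => p.Prime ∧ ¬ p ∣ Q), p := by
  classical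
  refine Finset.prod_primes_dvd _ (fun p hp => ((mem_filter.1 hp).2).prime) fun p hp => ?_
  obtain ⟨h1, h2⟩ := mem_filter.1 hp
  by_cases h3 : p ∣ Q
  · exact h3.mul_right _
  · exact (Finset.dvd_prod_of_mem (fun p => p) (mem_filter.2 ⟨h1, h2, h3⟩)).mul_left Q

open Classical in
/-- cells of natural numbers -/
theorem cells_nat (n : ℕ) (hn : 1 ≤ n) (η : ℝ) (hη : 0 < η) : ∃ s : ℕ, 1 ≤ s ∧
    ∀ V : Fin n → Finset ℕ, (∀ j, (V j).card = s) → (∀ i j, i ≠ j → Disjoint (V i) (V j)) →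
    (∀ p : ℕ, p.Prime → ∃ a : ℕ, ∀ j, ∀ h ∈ V j, ¬ p ∣ a + h) →
    ∀ L c₀ : ℕ, 0 < L → (∀ j, ∀ h ∈ V j, Nat.Coprime (c₀ + h) L) → ∀ D N0 : ℕ,
    ∃ (T : Finset ℕ) (μ : ℕ → ℝ), (∀ N ∈ T, N0 < N ∧ N ≡ c₀ [MOD L] ∧
        ∀ g ≤ D, (N + g).Prime → ∃ j, g ∈ V j) ∧
      (∀ N, 0 ≤ μ N) ∧ ∑ N ∈ T, μ N = 1 ∧
      ∀ j, 13 / 50 - η ≤ ∑ N ∈ T.filter (fun N => ∃ h ∈ V j, (N + h).Prime), μ N := by
  obtain ⟨s, a, C2, hs, ha, ha1, hC2, hB⟩ := med_uniform n hn η hη
  refine ⟨s, hs, fun V hcard hdisj hadm L c₀ hL hcop D N0 => ?_⟩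
  obtain ⟨w0, hw0⟩ := hB 1
  obtain ⟨Q, b₀, hQ, hLQ, hbL, hcopQ, hkill⟩ := killL L c₀ hL
    ((Finset.range (D + 1)).filter (fun g => ∀ j, g ∉ V j)) (univ.biUnion V) (by
      rw [Finset.disjoint_left]
      intro g hg hg'
      obtain ⟨j, _, hj⟩ := Finset.mem_biUnion.1 hg'
      exact (Finset.mem_filter.1 hg).2 j hj) (by
      intro a ha
      obtain ⟨j, _, hj⟩ := Finset.mem_biUnion.1 ha
      exact hcop j a hj)
  obtain ⟨S, hS⟩ : ∃ S : ℕ, ∀ j, ∀ y ∈ V j, y ≤ S := by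
    refine ⟨(univ.biUnion V).sup id, fun j y hy => ?_⟩
    exact Finset.le_sup (f := id) (mem_biUnion.2 ⟨j, mem_univ j, hy⟩)
  obtain ⟨w, hw⟩ : ∃ w : ℕ, w = max w0 S := ⟨_, rfl⟩
  have hw0w : w0 ≤ w := by rw [hw]; exact le_max_left _ _
  have hSw : S ≤ w := by rw [hw]; exact le_max_right _ _
  choose! r hr using hadm
  obtain ⟨b, hb1, hb2⟩ := crtP Q b₀ ((range (w + 1)).filter (fun p => p.Prime ∧ ¬ p ∣ Q))
    (fun p hp => (mem_filter.1 hp).2) r
  obtain ⟨W, hW⟩ : ∃ W : ℕ, W = Q * ∏ p ∈ (range (w + 1)).filter (fun p => p.Prime ∧ ¬ p ∣ Q), p :=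
    ⟨_, rfl⟩
  have hQW : Q ∣ W := by rw [hW]; exact dvd_mul_right _ _
  have hWpos : 0 < W := by
    rw [hW]
    exact Nat.mul_pos hQ (Finset.prod_pos fun p hp => (mem_filter.1 hp).2.1.pos)
  have hpw : primorial w ∣ W := by rw [hW]; exact primorial_dvd_mul Q w
  have hcopW : ∀ j, ∀ y ∈ V j, Nat.Coprime (b + y) W := by
    intro j y hy
    rw [hW]
    refine Nat.Coprime.mul_right ?_ (Nat.Coprime.prod_right fun p hp => ?_)
    · have h1 : b + y ≡ b₀ + y [MOD Q] := hb1.add_right y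
      rw [Nat.Coprime, h1.gcd_eq]
      exact hcopQ y (mem_biUnion.2 ⟨j, mem_univ j, hy⟩)
    · have hpp := (mem_filter.1 hp).2.1
      rw [Nat.coprime_comm, Nat.Prime.coprime_iff_not_dvd hpp]
      intro hd
      have h1 : b + y ≡ r p + y [MOD p] := (hb2 p hp).add_right y
      exact hr p hpp j y hy ((h1.dvd_iff dvd_rfl).1 hd)
  obtain ⟨x, hx, hxS, hxW, hxN, hxL⟩ := ((hw0 w hw0w).and
    ((Real.tendsto_log_atTop.eventually_ge_atTop (S : ℝ)).and
    ((Real.tendsto_log_atTop.eventually_ge_atTop (W : ℝ)).and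
    ((eventually_ge_atTop (((max N0 Q : ℕ) : ℝ) ^ 2)).and
    (Real.tendsto_log_atTop.eventually_ge_atTop (1 : ℝ)))))).exists
  obtain ⟨-, μ, h0, h1, h2, h3, h4⟩ := hx V W b (by
    refine ⟨hdisj, hcard, ?_, hWpos, hpw, ?_, ?_, hcopW⟩
    · intro j y hy
      rw [Real.rpow_one]
      have : (y : ℝ) ≤ S := by exact_mod_cast hS j y hy
      exact this.trans hxS
    · rw [Real.rpow_one]
      exact hxW
    · intro j j' y hy z hz hyz p hp hd
      refine dvd_trans ?_ hpw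
      have h5 : (y : ℤ) - z ≠ 0 := by
        intro h
        apply hyz
        omega
      have h6 := Int.le_of_dvd (abs_pos.2 h5) ((dvd_abs _ _).2 hd)
      have h7 := hS j y hy
      have h8 := hS j' z hz
      have h9 : |(y : ℤ) - z| ≤ S := by
        rw [abs_le]
        constructor <;> omega
      have h10 : p ≤ w := by omega
      exact Finset.dvd_prod_of_mem (fun p => p) (mem_filter.2 ⟨mem_range.2 (by omega), hp⟩))
  have hTx : ∀ N ∈ Tx x, max N0 Q < N := by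
    intro N hN
    unfold Tx at hN
    rw [mem_Ioc] at hN
    have h5 : max N0 Q ≤ ⌊Real.sqrt x⌋₊ := by
      apply Nat.le_floor
      exact Real.le_sqrt_of_sq_le hxN
    omega
  refine ⟨(Tx x).filter (fun N => μ N ≠ 0), μ, ?_, h0, ?_, ?_⟩
  · intro N hN
    obtain ⟨hN1, hN2⟩ := mem_filter.1 hN
    have h5 := hTx N hN1
    have h6 := (h2 N hN1 hN2).1
    have h7 : N ≡ b [MOD W] := h6
    have h8 : N ≡ b₀ [MOD Q] := (h7.of_dvd hQW).trans hb1
    have h9 : N0 ≤ max N0 Q := le_max_left _ _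
    have h10 : Q ≤ max N0 Q := le_max_right _ _
    refine ⟨by omega, (h8.of_dvd hLQ).trans hbL, fun g hg hp => ?_⟩
    by_contra hcon
    push Not at hcon
    exact hkill N (by omega) h8 g (mem_filter.2 ⟨mem_range.2 (by omega), hcon⟩) hp
  · rw [← h3, sum_filter]
    refine sum_congr rfl fun N _ => ?_
    by_cases h : μ N = 0
    · simp [h]
    · simp [h]
  · intro j
    refine (h4 j (Classical.decPred _)).trans (le_of_eq ?_)
    rw [filter_filter]
    rw [sum_filter, sum_filter]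
    refine sum_congr rfl fun N _ => ?_
    by_cases h : μ N = 0
    · simp [h]
    · simp [h]

open Classical in
/-- cells of integers -/
theorem cellsH (n : ℕ) (hn : 1 ≤ n) (η : ℝ) (hη : 0 < η) : ∃ s : ℕ, 1 ≤ s ∧
    ∀ (ι : Type) [Fintype ι] (V : ι → Finset ℤ), Fintype.card ι = n → (∀ j, (V j).card = s) →
    (∀ i j, i ≠ j → Disjoint (V i) (V j)) →
    (∀ p : ℕ, p.Prime → ∃ a : ℤ, ∀ j, ∀ h ∈ V j, ¬ (p : ℤ) ∣ a + h) →
    ∀ L c₀ : ℕ, 0 < L → (∀ j, ∀ h ∈ V j, IsCoprime ((c₀ : ℤ) + h) (L : ℤ)) → ∀ D N0 : ℕ,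
    ∃ (T : Finset ℕ) (μ : ℕ → ℝ), (∀ N ∈ T, N0 < N ∧ N ≡ c₀ [MOD L] ∧
        ∀ b : ℤ, |b| ≤ D → PP N b → ∃ j, b ∈ V j) ∧
      (∀ N, 0 ≤ μ N) ∧ ∑ N ∈ T, μ N = 1 ∧
      ∀ j, 13 / 50 - η ≤ ∑ N ∈ T.filter (fun N => ∃ b ∈ V j, PP N b), μ N := by
  obtain ⟨s, hs, hc⟩ := cells_nat n hn η hη
  refine ⟨s, hs, fun ι _ V hcι hcard hdisj hadm L c₀ hL hcop D N0 => ?_⟩
  obtain ⟨e⟩ : Nonempty (ι ≃ Fin n) := ⟨Fintype.equivFinOfCardEq hcι⟩
  obtain ⟨S, hS⟩ : ∃ S : ℕ, S = L * (D + ∑ j, ∑ b ∈ V j, b.natAbs) := ⟨_, rfl⟩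
  have hSD : D ≤ S := by
    rw [hS]
    exact le_trans (Nat.le_add_right _ _) (Nat.le_mul_of_pos_left _ hL)
  have hSb : ∀ j, ∀ b ∈ V j, b.natAbs ≤ S := by
    intro j b hb
    have h1 : b.natAbs ≤ ∑ b ∈ V j, b.natAbs :=
      Finset.single_le_sum (f := fun b : ℤ => b.natAbs) (fun _ _ => Nat.zero_le _) hb
    have h2 : ∑ b ∈ V j, b.natAbs ≤ ∑ j, ∑ b ∈ V j, b.natAbs :=
      Finset.single_le_sum (f := fun j => ∑ b ∈ V j, b.natAbs) (fun _ _ => Nat.zero_le _)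
        (Finset.mem_univ j)
    have h3 : D + ∑ j, ∑ b ∈ V j, b.natAbs ≤ S := by
      rw [hS]
      exact Nat.le_mul_of_pos_left _ hL
    omega
  have hLS : L ∣ S := ⟨_, hS⟩
  have hnn : ∀ j, ∀ b ∈ V j, 0 ≤ b + S := by
    intro j b hb
    have := hSb j b hb
    omega
  have hinjS : ∀ j, Set.InjOn (fun b : ℤ => (b + (S : ℤ)).toNat) (V j) := by
    intro j a ha b hb hab
    have h1 := hnn j a ha
    have h2 := hnn j b hb
    have h3 : (a + (S : ℤ)).toNat = (b + (S : ℤ)).toNat := hab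
    omega
  obtain ⟨T, μ, hT, hμ0, hμ1, hhit⟩ := hc
    (fun i => (V (e.symm i)).image (fun b => (b + (S : ℤ)).toNat))
    (by
      intro j
      rw [card_image_of_injOn (hinjS _), hcard])
    (by
      intro i j hij
      rw [disjoint_left]
      intro g hg hg'
      obtain ⟨b, hb, h1⟩ := mem_image.1 hg
      obtain ⟨b', hb', h2⟩ := mem_image.1 hg'
      have h3 := hnn _ b hb
      have h4 := hnn _ b' hb'
      have h5 : b = b' := by omega
      rw [← h5] at hb'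
      exact disjoint_left.1 (hdisj _ _ (fun h => hij (e.symm.injective h))) hb hb')
    (by
      intro q hq
      obtain ⟨a, ha⟩ := hadm q hq
      have hq0 : (0 : ℤ) < q := by exact_mod_cast hq.pos
      refine ⟨((a - S) % (q : ℤ)).toNat, fun j h hh hdv => ?_⟩
      obtain ⟨b, hb, h1⟩ := mem_image.1 hh
      apply ha _ b hb
      have h2 := hnn _ b hb
      have h3 : ((((a - S) % (q : ℤ)).toNat : ℕ) : ℤ) = (a - S) % (q : ℤ) :=
        Int.toNat_of_nonneg (Int.emod_nonneg _ hq0.ne')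
      have h4 : (h : ℤ) = b + S := by omega
      have h5 : (q : ℤ) ∣ ((((a - S) % (q : ℤ)).toNat + h : ℕ) : ℤ) := by exact_mod_cast hdv
      rw [Nat.cast_add, h3, h4] at h5
      have h6 : (q : ℤ) ∣ (a - S) - (a - S) % (q : ℤ) := Int.dvd_self_sub_emod
      have h7 := dvd_add h5 h6
      have h8 : (a - S) % (q : ℤ) + (b + S) + ((a - S) - (a - S) % (q : ℤ)) = a + b := by ring
      rw [h8] at h7
      exact h7)
    L c₀ hL
    (by
      intro j h hh
      obtain ⟨b, hb, h1⟩ := mem_image.1 hh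
      have h2 := hcop _ b hb
      obtain ⟨t, ht⟩ := hLS
      have h3 : IsCoprime ((c₀ : ℤ) + b + L * t) (L : ℤ) := h2.add_mul_left_left (t : ℤ)
      have h5 := hnn _ b hb
      have h4 : ((c₀ + h : ℕ) : ℤ) = (c₀ : ℤ) + b + L * t := by
        have h6 : (h : ℤ) = b + S := by omega
        rw [Nat.cast_add, h6, ht]
        push_cast
        ring
      rw [← h4] at h3
      exact Nat.isCoprime_iff_coprime.1 h3)
    (2 * S) N0
  have key : ∀ (N : ℕ) j, ∀ b ∈ V j, (PP (N + S) b ↔ (N + (b + (S : ℤ)).toNat).Prime) :=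
    fun N j b hb => PP_shift (hnn j b hb)
  refine ⟨T.image (fun N => N + S), fun N => μ (N - S), ?_, fun N => hμ0 _, ?_, ?_⟩
  · intro N hN
    obtain ⟨N', hN', rfl⟩ := mem_image.1 hN
    obtain ⟨h1, h2, h3⟩ := hT N' hN'
    refine ⟨by omega, ?_, ?_⟩
    · have h4 : N' + S ≡ c₀ + 0 [MOD L] := h2.add ((Nat.modEq_zero_iff_dvd).2 hLS)
      simpa using h4
    · intro b hb hp
      have hb2 := abs_le.1 hb
      have hb0 : 0 ≤ b + S := by omega
      rw [PP_shift hb0] at hp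
      obtain ⟨j, hj⟩ := h3 (b + (S : ℤ)).toNat (by omega) hp
      obtain ⟨b', hb', h4⟩ := mem_image.1 hj
      have h5 := hnn _ b' hb'
      have h6 : b' = b := by omega
      exact ⟨e.symm j, h6 ▸ hb'⟩
  · rw [sum_image (fun a _ b _ hab => by
      have : a + S = b + S := hab
      omega)]
    simp only [Nat.add_sub_cancel]
    exact hμ1
  · intro j
    refine (hhit (e j)).trans (le_of_eq ?_)
    rw [sum_filter, sum_filter, sum_image (fun a _ b _ hab => by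
      have : a + S = b + S := hab
      omega)]
    refine sum_congr rfl fun N _ => ?_
    simp only [Nat.add_sub_cancel]
    have h1 : (∃ h ∈ (V (e.symm (e j))).image (fun b => (b + (S : ℤ)).toNat), (N + h).Prime) ↔
        ∃ b ∈ V j, PP (N + S) b := by
      rw [Equiv.symm_apply_apply]
      constructor
      · rintro ⟨h, hh, hp⟩
        obtain ⟨b, hb, rfl⟩ := mem_image.1 hh
        exact ⟨b, hb, (key N j b hb).2 hp⟩
      · rintro ⟨b, hb, hp⟩
        exact ⟨_, mem_image_of_mem _ hb, (key N j b hb).1 hp⟩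
    by_cases h2 : ∃ b ∈ V j, PP (N + S) b
    · rw [if_pos h2, if_pos (h1.2 h2)]
    · rw [if_neg h2, if_neg (fun h => h2 (h1.1 h))]

end Pool.Agent.H48.ST
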