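import Pool.Agent.H21.CG.Df

/-!
# [H48 ST DF] strings of consecutive primes in prescribed classes at prescribed distances: definitions

`PP N b` (`Pool/Agent/H30/CP/BinsZ.lean`): `((N : ℤ) + b).toNat` is a prime; `gap` (`Pool/Agent/H21/CG/Df.lean`).
-/

set_option autoImplicit false

namespace Pool.Agent.H48.ST

open Finset Pool.Agent.H30.CP Pool.Agent.H21.CG

/-- all primes `N + b` in the hull `x 0 - C ≤ b ≤ x k + C` are within `C` of some `x j`, and then `≡ w j (mod Q)` and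
`≡ s₀ (mod L)`; near each `x j` there are at least `K` of them -/
def Cl (k K L s₀ Q C : ℕ) (w x : Fin (k + 1) → ℤ) (N : ℕ) : Prop :=
  (∀ b : ℤ, x 0 - C ≤ b → b ≤ x (Fin.last k) + C → PP N b →
    ∃ j, |b - x j| ≤ C ∧ (N : ℤ) + b ≡ w j [ZMOD Q] ∧ (N : ℤ) + b ≡ s₀ [ZMOD L]) ∧
  ∀ j, ∃ A : Finset ℤ, K ≤ A.card ∧ ∀ b ∈ A, |b - x j| ≤ C ∧ PP N b

/-- the primes with the indices `m 0, .., m (k+1) - 1` form `k + 1` strings: the `j`-th has the indices in `[m j, m (j+1))`,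
at least `K` members, all `≡ w j (mod Q)` and `≡ s₀ (mod L)`, within `C` of each other; the jumps are within `C` of the `u j` -/
def Strings (k K L s₀ Q C : ℕ) (w : Fin (k + 1) → ℤ) (u : Fin k → ℕ) (m : Fin (k + 2) → ℕ) : Prop :=
  (∀ j : Fin (k + 1), m j.castSucc + K ≤ m j.succ ∧
    (∀ i, m j.castSucc ≤ i → i < m j.succ →
      (Nat.nth Nat.Prime i : ℤ) ≡ s₀ [ZMOD L] ∧ (Nat.nth Nat.Prime i : ℤ) ≡ w j [ZMOD Q]) ∧
    Nat.nth Nat.Prime (m j.succ - 1) ≤ Nat.nth Nat.Prime (m j.castSucc) + C) ∧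
  ∀ j : Fin k, |(gap (m j.succ.castSucc - 1) : ℤ) - u j| ≤ C

end Pool.Agent.H48.ST
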