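import Pool.Agent.H48.ST.Df

/-!
MP_8923e7_nt, project ST (strings of consecutive primes in prescribed classes and at prescribed distances):
the passage from clusters of shifts `b` (`PP N b`: `N + b` is a prime) to the numbering `Nat.nth Nat.Prime`.

`strings_of_cl`: if all primes `N + b` with `x 0 - C ≤ b ≤ x k + C` are within `C` of one of the pairwise distant
shifts `x j`, in the class `w j` mod `Q` and in the class `s0` mod `L`, and there are at least `K ≥ 1` of them near
each `x j`, then `k + 1` strings of consecutive primes follow each other.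
-/

namespace Pool.Agent.H48.ST

open Finset Pool.Agent.H30.CP Pool.Agent.H21.CG

theorem count_le_iff (a n : ℕ) : Nat.count Nat.Prime a ≤ n ↔ a ≤ Nat.nth Nat.Prime n :=
  Nat.count_le_iff_le_nth Nat.infinite_setOfPred_prime

theorem lt_count_iff (a n : ℕ) : n < Nat.count Nat.Prime a ↔ Nat.nth Nat.Prime n < a := by
  rw [← not_le, count_le_iff, not_le]

theorem prime_nth (n : ℕ) : (Nat.nth Nat.Prime n).Prime := Nat.prime_nth_prime n

/-- at least `A.card` primes in `[l, h)` -/
theorem count_card {l h : ℕ} (hlh : l ≤ h) (A : Finset ℕ)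
    (hA : ∀ a ∈ A, l ≤ a ∧ a < h ∧ a.Prime) : Nat.count Nat.Prime l + A.card ≤ Nat.count Nat.Prime h := by
  rw [Nat.count_eq_card_filter_range, Nat.count_eq_card_filter_range, ← card_union_of_disjoint]
  · refine card_le_card fun a ha => ?_
    rw [mem_union] at ha
    rw [mem_filter, mem_range]
    rcases ha with ha | ha
    · rw [mem_filter, mem_range] at ha
      exact ⟨lt_of_lt_of_le ha.1 hlh, ha.2⟩
    · exact ⟨(hA a ha).2.1, (hA a ha).2.2⟩
  · rw [disjoint_left]
    intro a ha ha'
    rw [mem_filter, mem_range] at ha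
    exact absurd (hA a ha').1 (not_le.2 ha.1)

/-- no prime in `[l, h)` -/
theorem count_eq {l h : ℕ} (hlh : l ≤ h) (H : ∀ a, l ≤ a → a < h → ¬ a.Prime) :
    Nat.count Nat.Prime l = Nat.count Nat.Prime h := by
  refine le_antisymm (Nat.count_monotone _ hlh) ?_
  by_contra hc
  rw [not_le, lt_count_iff] at hc
  exact H _ ((count_le_iff _ _).1 le_rfl) hc (prime_nth _)

theorem step {k C : ℕ} {x : Fin (k + 1) → ℤ} (hx : ∀ j : Fin k, x j.castSucc + 2 * C < x j.succ)
    {i j : Fin (k + 1)} (hij : i < j) : x i + 2 * C < x j := by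
  have hmono : StrictMono x := Fin.strictMono_iff_lt_succ.2 fun j => by
    have := hx j
    omega
  have hi : i.val < k := lt_of_lt_of_le hij (Nat.lt_succ_iff.1 j.2)
  have h1 := hx ⟨i.val, hi⟩
  have h2 : x (Fin.succ ⟨i.val, hi⟩) ≤ x j := hmono.monotone (by
    rw [Fin.le_def]
    simpa using hij)
  have h3 : (Fin.castSucc ⟨i.val, hi⟩ : Fin (k + 1)) = i := rfl
  rw [h3] at h1
  omega

theorem strings_of_cl {k K L s0 Q C : ℕ} (hK : 1 ≤ K) {w x : Fin (k + 1) → ℤ} {u : Fin k → ℕ}
    (hx : ∀ j : Fin k, x j.castSucc + 2 * C < x j.succ)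
    (hu : ∀ j : Fin k, |x j.succ - x j.castSucc - u j| ≤ C) {N : ℕ}
    (hN : ∀ j, 0 ≤ (N : ℤ) + x j - C) (h : Cl k K L s0 Q C w x N) :
    ∃ m : Fin (k + 2) → ℕ, Strings k K L s0 Q (3 * C) w u m ∧
      (N : ℤ) + x 0 - C ≤ Nat.nth Nat.Prime (m 0) := by
  obtain ⟨h1, h2⟩ := h
  have hmono : Monotone x := by
    intro i j hij
    rcases hij.lt_or_eq with hlt | rfl
    · have := step hx hlt
      omega
    · exact le_rfl
  have h0 : ∀ j, x 0 ≤ x j := fun j => hmono (Fin.zero_le j)
  have hl : ∀ j, x j ≤ x (Fin.last k) := fun j => hmono (Fin.le_last j)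
  -- the windows
  set lo : Fin (k + 1) → ℕ := fun j => ((N : ℤ) + x j - C).toNat with hlo
  set hi : Fin (k + 1) → ℕ := fun j => ((N : ℤ) + x j + C + 1).toNat with hhi
  have elo : ∀ j, (lo j : ℤ) = (N : ℤ) + x j - C := fun j => Int.toNat_of_nonneg (hN j)
  have ehi : ∀ j, (hi j : ℤ) = (N : ℤ) + x j + C + 1 := fun j =>
    Int.toNat_of_nonneg (by have := hN j; omega)
  have hlohi : ∀ j, lo j ≤ hi j := fun j => by
    have := elo j
    have := ehi j
    omega
  -- a prime in the window
  have hwin : ∀ (j : Fin (k + 1)) (p : ℕ), p.Prime → lo j ≤ p → p < hi j →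
      (p : ℤ) ≡ w j [ZMOD Q] ∧ (p : ℤ) ≡ s0 [ZMOD L] := by
    intro j p hp hp1 hp2
    have e1 := elo j
    have e2 := ehi j
    have hpp : PP N ((p : ℤ) - N) := by
      unfold PP
      have e : ((N : ℤ) + ((p : ℤ) - N)).toNat = p := by omega
      rw [e]
      exact hp
    obtain ⟨i, hi1, hi2, hi3⟩ := h1 ((p : ℤ) - N) (by have := h0 j; omega) (by have := hl j; omega) hpp
    rw [abs_le] at hi1
    have hij : i = j := by
      rcases lt_trichotomy i j with hlt | heq | hgt
      · have := step hx hlt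
        omega
      · exact heq
      · have := step hx hgt
        omega
    subst hij
    rw [show (N : ℤ) + ((p : ℤ) - N) = p by ring] at hi2 hi3
    exact ⟨hi2, hi3⟩
  -- the counts
  have hcard : ∀ j, Nat.count Nat.Prime (lo j) + K ≤ Nat.count Nat.Prime (hi j) := by
    intro j
    obtain ⟨A, hA1, hA2⟩ := h2 j
    have hinj : Set.InjOn (fun b : ℤ => ((N : ℤ) + b).toNat) A := by
      intro a ha b hb hab
      have ha2 := (hA2 a ha).1
      have hb2 := (hA2 b hb).1
      rw [abs_le] at ha2 hb2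
      have hn := hN j
      have hab' : ((N : ℤ) + a).toNat = ((N : ℤ) + b).toNat := hab
      omega
    have hc := count_card (hlohi j) (A.image fun b : ℤ => ((N : ℤ) + b).toNat) (by
      intro a ha
      rw [mem_image] at ha
      obtain ⟨b, hb, rfl⟩ := ha
      have hb2 := hA2 b hb
      have hb3 := hb2.1
      rw [abs_le] at hb3
      have e1 := elo j
      have e2 := ehi j
      have hn := hN j
      refine ⟨by omega, by omega, hb2.2⟩)
    rw [card_image_of_injOn hinj] at hc
    omega
  have hglue : ∀ j : Fin k, Nat.count Nat.Prime (hi j.castSucc) = Nat.count Nat.Prime (lo j.succ) := by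
    intro j
    have e1 := ehi j.castSucc
    have e2 := elo j.succ
    have hxj := hx j
    refine count_eq (by omega) fun a ha1 ha2 hap => ?_
    have hpp : PP N ((a : ℤ) - N) := by
      unfold PP
      have e : ((N : ℤ) + ((a : ℤ) - N)).toNat = a := by omega
      rw [e]
      exact hap
    have hz := h0 j.castSucc
    have hz' := hl j.succ
    obtain ⟨i, hi1, -, -⟩ := h1 ((a : ℤ) - N) (by omega) (by omega) hpp
    rw [abs_le] at hi1
    rcases le_or_gt i j.castSucc with hle | hgt
    · have := hmono hle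
      omega
    · have hle : j.succ ≤ i := by
        rw [Fin.lt_def] at hgt
        rw [Fin.le_def]
        simpa using hgt
      have := hmono hle
      omega
  -- the indices
  have hin : ∀ j (i : ℕ), Nat.count Nat.Prime (lo j) ≤ i → i < Nat.count Nat.Prime (hi j) →
      lo j ≤ Nat.nth Nat.Prime i ∧ Nat.nth Nat.Prime i < hi j := fun j i hi1 hi2 =>
    ⟨(count_le_iff _ _).1 hi1, (lt_count_iff _ _).1 hi2⟩
  set m : Fin (k + 2) → ℕ :=
    Fin.snoc (α := fun _ => ℕ) (fun j : Fin (k + 1) => Nat.count Nat.Prime (lo j))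
      (Nat.count Nat.Prime (hi (Fin.last k))) with hm
  have mc : ∀ j : Fin (k + 1), m j.castSucc = Nat.count Nat.Prime (lo j) := fun j => by
    rw [hm, Fin.snoc_castSucc]
  have ms : ∀ j : Fin (k + 1), m j.succ = Nat.count Nat.Prime (hi j) := by
    intro j
    induction j using Fin.lastCases with
    | last => rw [Fin.succ_last, hm, Fin.snoc_last]
    | cast i => rw [Fin.succ_castSucc, mc, hglue]
  refine ⟨m, ⟨fun j => ⟨?_, ?_, ?_⟩, fun j => ?_⟩, ?_⟩
  · rw [mc, ms]
    exact hcard j
  · intro i hi1 hi2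
    rw [mc] at hi1
    rw [ms] at hi2
    obtain ⟨ha, hb⟩ := hin j i hi1 hi2
    obtain ⟨hc, hd⟩ := hwin j _ (prime_nth i) ha hb
    exact ⟨hd, hc⟩
  · rw [mc, ms]
    have hc := hcard j
    obtain ⟨ha, -⟩ := hin j (Nat.count Nat.Prime (lo j)) le_rfl (by omega)
    obtain ⟨-, hb⟩ := hin j (Nat.count Nat.Prime (hi j) - 1) (by omega) (by omega)
    have e1 := elo j
    have e2 := ehi j
    omega
  · rw [mc]
    have hc := hcard j.succ
    have hc' := hcard j.castSucc
    have hg := hglue j
    obtain ⟨ha, hb⟩ := hin j.succ (Nat.count Nat.Prime (lo j.succ)) le_rfl (by omega)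
    obtain ⟨ha', hb'⟩ := hin j.castSucc (Nat.count Nat.Prime (hi j.castSucc) - 1) (by omega) (by omega)
    rw [hg] at ha' hb'
    have e1 := elo j.succ
    have e2 := ehi j.succ
    have e3 := elo j.castSucc
    have e4 := ehi j.castSucc
    have huj := hu j
    have hxj := hx j
    unfold gap
    rw [show Nat.count Nat.Prime (lo j.succ) - 1 + 1 = Nat.count Nat.Prime (lo j.succ) by omega]
    rw [abs_le] at huj ⊢
    omega
  · have e0 : (0 : Fin (k + 2)) = Fin.castSucc (0 : Fin (k + 1)) := rfl
    rw [e0, mc]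
    obtain ⟨ha, -⟩ := hin 0 (Nat.count Nat.Prime (lo 0)) le_rfl (by have := hcard 0; omega)
    have e1 := elo 0
    omega

end Pool.Agent.H48.ST
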