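import Pool.Agent.H48.ST.Main
import Pool.Agent.H48.ST.Nth

/-!
# [H48 ST FIN] strings of consecutive primes in prescribed classes and at prescribed distances

`strings_family`: of any `T` pairwise coprime moduli one is good, if `50 k ^ T < 13 (k + 1) ^ T`.
`two_strings`: the case `k = 1`, `T = 2`.
-/

set_option autoImplicit false

namespace Pool.Agent.H48.ST

open Finset Pool.Agent.H30.CP Pool.Agent.H21.CG

theorem Strings.mono {k K K' L s₀ Q C C' : ℕ} {w : Fin (k + 1) → ℤ} {u u' : Fin k → ℕ}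
    {m : Fin (k + 2) → ℕ} (h : Strings k K L s₀ Q C w u m) (hK : K' ≤ K) (hC : C ≤ C')
    (hu : ∀ j, |(u j : ℤ) - u' j| + C ≤ C') : Strings k K' L s₀ Q C' w u' m := by
  obtain ⟨h1, h2⟩ := h
  refine ⟨fun j => ?_, fun j => ?_⟩
  · obtain ⟨h3, h4, h5⟩ := h1 j
    exact ⟨by omega, h4, h5.trans (by omega)⟩
  · have h3 := h2 j
    have h4 := hu j
    have e : (gap (m j.succ.castSucc - 1) : ℤ) - u' j =
        ((gap (m j.succ.castSucc - 1) : ℤ) - u j) + ((u j : ℤ) - u' j) := by ring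
    rw [e]
    refine (abs_add_le _ _).trans ?_
    linarith

/-- bad for the strings implies bad vectors in given classes -/
theorem badx_of_bad {k K L s₀ Q : ℕ} (hK : 1 ≤ K) {w : Fin (k + 1) → ℤ}
    (hbad : ∀ C : ℕ, ∃ u : Fin k → ℕ, ∃ B : ℕ, ∀ m : Fin (k + 2) → ℕ,
      Strings k K L s₀ Q C w u m → m 0 < B) : Badx k K L s₀ Q w := by
  classical
  intro W hW c hc0 C G hWC hCG
  have hWz : (0 : ℤ) < W := by exact_mod_cast hW
  obtain ⟨u, B, hB⟩ := hbad (3 * C + (G + W + 1))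
  obtain ⟨u', hu'⟩ : ∃ u' : Fin k → ℕ, u' = fun j => u j + (G + W + 1) := ⟨_, rfl⟩
  obtain ⟨U, hU⟩ : ∃ U : Fin (k + 1) → ℤ,
      U = fun j => ∑ i ∈ univ.filter (fun i : Fin k => i.castSucc < j), (u' i : ℤ) := ⟨_, rfl⟩
  have hU0 : U 0 = 0 := by
    rw [hU]
    refine sum_eq_zero fun i hi => ?_
    exact absurd (mem_filter.1 hi).2 (Fin.not_lt_zero _)
  have hUs : ∀ j : Fin k, U j.succ = U j.castSucc + u' j := by
    intro j
    rw [hU]
    have h1 : univ.filter (fun i : Fin k => i.castSucc < j.succ) =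
        insert j (univ.filter (fun i : Fin k => i.castSucc < j.castSucc)) := by
      ext i
      simp only [mem_filter, mem_univ, true_and, mem_insert, Fin.lt_def, Fin.val_castSucc,
        Fin.val_succ, Fin.ext_iff]
      omega
    show ∑ i ∈ univ.filter (fun i : Fin k => i.castSucc < j.succ), (u' i : ℤ) =
      ∑ i ∈ univ.filter (fun i : Fin k => i.castSucc < j.castSucc), (u' i : ℤ) + u' j
    have h2 : j ∉ univ.filter (fun i : Fin k => i.castSucc < j.castSucc) :=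
      fun h => lt_irrefl _ (mem_filter.1 h).2
    rw [h1, sum_insert h2, add_comm]
  obtain ⟨ρ, hρ⟩ : ∃ ρ : Fin (k + 1) → ℤ, ρ = fun j => (c j - U j) % W := ⟨_, rfl⟩
  have hρ0 : ∀ j, 0 ≤ ρ j := fun j => by
    rw [hρ]
    exact Int.emod_nonneg _ hWz.ne'
  have hρ1 : ∀ j, ρ j < W := fun j => by
    rw [hρ]
    exact Int.emod_lt_of_pos _ hWz
  have hx : ∀ j, (W : ℤ) ∣ (U j + ρ j) - c j := by
    intro j
    have h1 : (W : ℤ) ∣ (c j - U j) - (c j - U j) % W := Int.dvd_self_sub_emod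
    have e : U j + ρ j - c j = -((c j - U j) - (c j - U j) % W) := by
      rw [hρ]
      ring
    rw [e]
    exact (dvd_neg).2 h1
  have hu'c : ∀ j, (u' j : ℤ) = u j + (G + W + 1) := by
    intro j
    rw [hu']
    push_cast
    ring
  refine ⟨fun j => U j + ρ j, ?_, hx, fun j => ?_, ?_⟩
  · show U 0 + ρ 0 = 0
    rw [hU0, zero_add, hρ]
    show (c 0 - U 0) % W = 0
    rw [hU0, sub_zero]
    exact Int.emod_eq_zero_of_dvd hc0
  · show U j.castSucc + ρ j.castSucc + G < U j.succ + ρ j.succ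
    have h1 := hρ1 j.castSucc
    have h2 := hρ0 j.succ
    have h3 := hu'c j
    rw [hUs]
    have h4 : (0 : ℤ) ≤ u j := Int.natCast_nonneg _
    linarith
  · have h0U : ∀ j, 0 ≤ U j := by
      intro j
      rw [hU]
      exact sum_nonneg fun i _ => Int.natCast_nonneg _
    refine ⟨Nat.nth Nat.Prime B + C, fun N hN hcl => ?_⟩
    obtain ⟨m, hm, hmN⟩ := strings_of_cl hK (x := fun j => U j + ρ j) (fun j => by
      show U j.castSucc + ρ j.castSucc + 2 * C < U j.succ + ρ j.succ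
      have h1 := hρ1 j.castSucc
      have h2 := hρ0 j.succ
      have h3 := hu'c j
      rw [hUs]
      have h4 : (0 : ℤ) ≤ u j := Int.natCast_nonneg _
      have h5 : ((2 * C : ℕ) : ℤ) ≤ G := by exact_mod_cast hCG
      push_cast at h5
      linarith) (u := u') (fun j => by
      show |U j.succ + ρ j.succ - (U j.castSucc + ρ j.castSucc) - u' j| ≤ C
      rw [hUs]
      have e : U j.castSucc + u' j + ρ j.succ - (U j.castSucc + ρ j.castSucc) - u' j =
          ρ j.succ - ρ j.castSucc := by ring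
      rw [e, abs_le]
      have h1 := hρ1 j.castSucc
      have h2 := hρ0 j.castSucc
      have h3 := hρ1 j.succ
      have h4 := hρ0 j.succ
      have h5 : (W : ℤ) ≤ C := by exact_mod_cast hWC
      constructor <;> linarith) (N := N) (fun j => by
      show 0 ≤ (N : ℤ) + (U j + ρ j) - C
      have h1 := h0U j
      have h2 := hρ0 j
      have h3 : (C : ℤ) ≤ N := by
        have : C ≤ N := by omega
        exact_mod_cast this
      linarith) hcl
    have h1 := hB m (hm.mono le_rfl (by omega) (fun j => by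
      have h2 := hu'c j
      have e : (u' j : ℤ) - u j = ((G + W + 1 : ℕ) : ℤ) := by
        push_cast
        linarith
      rw [e, abs_of_nonneg (Int.natCast_nonneg _)]
      push_cast
      linarith))
    have h2 : Nat.nth Nat.Prime (m 0) < Nat.nth Nat.Prime B :=
      Nat.nth_strictMono Nat.infinite_setOfPred_prime h1
    have h3 : ((N : ℤ) + (U 0 + ρ 0) - C) ≤ (Nat.nth Nat.Prime (m 0) : ℤ) := hmN
    have h4 := h0U 0
    have h5 := hρ0 0
    have h6 : ((Nat.nth Nat.Prime B + C : ℕ) : ℤ) ≤ N := by exact_mod_cast hN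
    have h7 : (Nat.nth Nat.Prime (m 0) : ℤ) < (Nat.nth Nat.Prime B : ℤ) := by exact_mod_cast h2
    push_cast at h6
    linarith

/-- **strings of consecutive primes** -/
theorem strings_family (k T : ℕ) (hT : 50 * k ^ T < 13 * (k + 1) ^ T) (L s₀ : ℕ)
    (hL : 0 < L) (hs : Nat.Coprime s₀ L) (Q : Fin T → ℕ) (hQ : ∀ i, 0 < Q i)
    (hQL : ∀ i, Nat.Coprime (Q i) L) (hQQ : ∀ i j, i ≠ j → Nat.Coprime (Q i) (Q j)) :
    ∃ i, ∀ w : Fin (k + 1) → ℤ, (∀ j, IsCoprime (w j) (Q i : ℤ)) → ∀ K : ℕ, ∃ C : ℕ,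
      ∀ u : Fin k → ℕ, ∀ B : ℕ, ∃ m : Fin (k + 2) → ℕ, Strings k K L s₀ (Q i) C w u m ∧ B ≤ m 0 := by
  classical
  by_contra hcon
  push Not at hcon
  choose w hw K hK using hcon
  obtain ⟨i, hi⟩ := family_bad k T (univ.sup K + 1) hT L s₀ hL hs Q hQ hQL hQQ w hw
  refine hi (badx_of_bad (Nat.le_add_left 1 _) fun C => ?_)
  obtain ⟨u, B, hB⟩ := hK i C
  refine ⟨u, B, fun m hm => hB m (hm.mono ?_ le_rfl (fun j => ?_))⟩
  · exact (Finset.le_sup (f := K) (mem_univ i)).trans (Nat.le_succ _)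
  · simp

/-- the case of two strings -/
theorem two_strings (L s₀ : ℕ) (hL : 0 < L) (hs : Nat.Coprime s₀ L) (Q : Fin 2 → ℕ)
    (hQ : ∀ i, 0 < Q i) (hQL : ∀ i, Nat.Coprime (Q i) L) (hQQ : Nat.Coprime (Q 0) (Q 1)) :
    ∃ i, ∀ A B : ℤ, IsCoprime A (Q i : ℤ) → IsCoprime B (Q i : ℤ) → ∀ K : ℕ, ∃ C : ℕ, ∀ u : ℕ,
      {n : ℕ | K ≤ n + 1 ∧ (∀ i' < K,
        (Nat.nth Nat.Prime (n - i') : ℤ) ≡ A [ZMOD Q i] ∧
        (Nat.nth Nat.Prime (n - i') : ℤ) ≡ s₀ [ZMOD L] ∧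
        (Nat.nth Nat.Prime (n + 1 + i') : ℤ) ≡ B [ZMOD Q i] ∧
        (Nat.nth Nat.Prime (n + 1 + i') : ℤ) ≡ s₀ [ZMOD L]) ∧
        |(gap n : ℤ) - u| ≤ C}.Infinite := by
  obtain ⟨i, hi⟩ := strings_family 1 2 (by norm_num) L s₀ hL hs Q hQ hQL (by
    intro i j hij
    fin_cases i <;> fin_cases j
    · exact absurd rfl hij
    · exact hQQ
    · exact hQQ.symm
    · exact absurd rfl hij)
  refine ⟨i, fun A B hA hB K => ?_⟩
  obtain ⟨C, hC⟩ := hi ![A, B] (by
    intro j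
    fin_cases j
    · exact hA
    · exact hB) (K + 1)
  refine ⟨C, fun u => ?_⟩
  rw [Set.infinite_iff_exists_gt]
  intro N
  obtain ⟨m, ⟨h1, h2⟩, hm⟩ := hC (fun _ => u) (N + 1)
  obtain ⟨a1, a2, -⟩ := h1 0
  obtain ⟨b1, b2, -⟩ := h1 1
  have h3 := h2 0
  have e0 : (Fin.castSucc (0 : Fin 2) : Fin 3) = 0 := rfl
  have e1 : (Fin.succ (0 : Fin 2) : Fin 3) = 1 := rfl
  have e2 : (Fin.castSucc (1 : Fin 2) : Fin 3) = 1 := rfl
  have e3 : (Fin.succ (1 : Fin 2) : Fin 3) = 2 := rfl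
  have e4 : (Fin.castSucc (Fin.succ (0 : Fin 1)) : Fin 3) = 1 := rfl
  rw [e0, e1] at a1
  rw [e0, e1] at a2
  rw [e2, e3] at b1
  rw [e2, e3] at b2
  rw [e4] at h3
  have hm' : N + 1 ≤ m 0 := hm
  refine ⟨m 1 - 1, ⟨by omega, fun i' hi' => ?_, h3⟩, by omega⟩
  have h4 := a2 (m 1 - 1 - i') (by omega) (by omega)
  have h5 := b2 (m 1 - 1 + 1 + i') (by omega) (by omega)
  exact ⟨h4.2, h4.1, h5.2, h5.1⟩

end Pool.Agent.H48.ST
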