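import Pool.Agent.H48.ST.Rec
import Pool.Agent.H48.ST.Cell
import Pool.Agent.H21.LP.Main

/-!
# [H48 ST MAIN] the moduli cannot all be bad, if `50 k ^ T < 13 (k + 1) ^ T`
-/

set_option autoImplicit false

namespace Pool.Agent.H48.ST

open Finset Pool.Agent.H30.CP Pool.Agent.H21.CG

private theorem cop_of_dvd {a b n : ℤ} (h : IsCoprime a n) (hd : n ∣ b - a) : IsCoprime b n := by
  obtain ⟨t, ht⟩ := hd
  have e : b = a + n * t := by linarith
  rw [e]
  exact h.add_mul_left_left t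

theorem family_bad (k t K : ℕ) (hkt : 50 * k ^ t < 13 * (k + 1) ^ t) (L s₀ : ℕ)
    (hL : 0 < L) (hs₀ : Nat.Coprime s₀ L) (Q : Fin t → ℕ) (hQ : ∀ i, 0 < Q i)
    (hQL : ∀ i, Nat.Coprime (Q i) L) (hQQ : ∀ i j, i ≠ j → Nat.Coprime (Q i) (Q j))
    (w : Fin t → Fin (k + 1) → ℤ) (hw : ∀ i j, IsCoprime (w i j) (Q i : ℤ)) :
    ∃ i, ¬ Badx k K L s₀ (Q i) (w i) := by
  classical
  by_contra hcon
  push Not at hcon
  -- parameters
  obtain ⟨A, hA⟩ : ∃ A : ℕ, A = (k + 1) ^ t := ⟨_, rfl⟩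
  have hA1 : 1 ≤ A := by
    rw [hA]
    exact Nat.one_le_pow _ _ (Nat.succ_pos k)
  obtain ⟨q, hq⟩ : ∃ q : ℕ, q = 100 * K * A + 1 := ⟨_, rfl⟩
  have hq1 : 1 ≤ q := by omega
  have hAR : (1 : ℝ) ≤ A := by exact_mod_cast hA1
  obtain ⟨sc, hsc, hcells⟩ := cellsH (A * q) (Nat.mul_pos hA1 hq1) (1 / (100 * A)) (by positivity)
  obtain ⟨K', hK'⟩ : ∃ K' : ℕ, K' = A * q * sc := ⟨_, rfl⟩
  set M : ℕ := L * ∏ i, Q i with hM
  have hM0 : 0 < M := Nat.mul_pos hL (Finset.prod_pos fun i _ => hQ i)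
  set W : ℕ := M * K'.factorial with hW
  have hW0 : 0 < W := Nat.mul_pos hM0 (Nat.factorial_pos K')
  have hW0Z : (0 : ℤ) < W := by exact_mod_cast hW0
  have hLM : L ∣ M := dvd_mul_right _ _
  have hQM : ∀ i, Q i ∣ M := fun i => dvd_mul_of_dvd_right
    (Finset.dvd_prod_of_mem Q (mem_univ i)) L
  have hMW : M ∣ W := dvd_mul_right _ _
  choose u hu1 hu2 hu3 hu4 using fun i => Pool.Agent.H21.LP.crt_exists L t Q hQL hQQ K' i
  -- the base cells
  set B0 : Fin q → Finset ℤ := fun i => (range sc).image (fun l : ℕ => (W : ℤ) * ((i : ℕ) * sc + l : ℕ))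
    with hB0
  have hB0W : ∀ i, ∀ β ∈ B0 i, (W : ℤ) ∣ β := by
    intro i β hβ
    rw [hB0, mem_image] at hβ
    obtain ⟨l, _, rfl⟩ := hβ
    exact dvd_mul_right _ _
  have hB0card : ∀ i, (B0 i).card = sc := by
    intro i
    rw [hB0, card_image_of_injective, card_range]
    intro l l' hll
    have h1 : (W : ℤ) * (((i : ℕ) * sc + l : ℕ) : ℤ) = (W : ℤ) * (((i : ℕ) * sc + l' : ℕ) : ℤ) := hll
    have h2 : (((i : ℕ) * sc + l : ℕ) : ℤ) = (((i : ℕ) * sc + l' : ℕ) : ℤ) :=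
      mul_left_cancel₀ hW0Z.ne' h1
    have h3 : (i : ℕ) * sc + l = (i : ℕ) * sc + l' := by exact_mod_cast h2
    omega
  have hB0i : ∀ i i', ∀ β ∈ B0 i, β ∈ B0 i' → i = i' := by
    intro i i' β hβ hβ'
    rw [hB0, mem_image] at hβ hβ'
    obtain ⟨l, hl, h1⟩ := hβ
    obtain ⟨l', hl', h2⟩ := hβ'
    rw [mem_range] at hl hl'
    have h3 : (W : ℤ) * (((i : ℕ) * sc + l : ℕ) : ℤ) = (W : ℤ) * (((i' : ℕ) * sc + l' : ℕ) : ℤ) :=
      h1.trans h2.symm
    have h4 : (((i : ℕ) * sc + l : ℕ) : ℤ) = (((i' : ℕ) * sc + l' : ℕ) : ℤ) :=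
      mul_left_cancel₀ hW0Z.ne' h3
    have h5 : (i : ℕ) * sc + l = (i' : ℕ) * sc + l' := by exact_mod_cast h4
    have hsc0 : 0 < sc := hsc
    have h6 : ((i : ℕ) * sc + l) / sc = i := by
      rw [mul_comm, Nat.mul_add_div hsc0, Nat.div_eq_of_lt hl, add_zero]
    have h7 : ((i' : ℕ) * sc + l') / sc = i' := by
      rw [mul_comm, Nat.mul_add_div hsc0, Nat.div_eq_of_lt hl', add_zero]
    rw [h5, h7] at h6
    exact (Fin.ext h6).symm
  -- the data indexed by natural numbers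
  let Q' : ℕ → ℕ := fun i => if h : i < t then Q ⟨i, h⟩ else 1
  let s' : ℕ → ℤ := fun i => if h : i < t then w ⟨i, h⟩ 0 else 0
  let w' : ℕ → Fin (k + 1) → ℤ := fun i => if h : i < t then w ⟨i, h⟩ else 0
  let m' : ℕ → Fin (k + 1) → ℤ := fun i => if h : i < t then fun j => w ⟨i, h⟩ j - w ⟨i, h⟩ 0 else 0
  let u' : ℕ → ℤ := fun i => if h : i < t then u ⟨i, h⟩ else 0
  have hQ' : ∀ i (h : i < t), Q' i = Q ⟨i, h⟩ := fun i h => dif_pos h
  have hs' : ∀ i (h : i < t), s' i = w ⟨i, h⟩ 0 := fun i h => dif_pos h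
  have hw' : ∀ i (h : i < t), w' i = w ⟨i, h⟩ := fun i h => dif_pos h
  have hm' : ∀ i (h : i < t), m' i = fun j => w ⟨i, h⟩ j - w ⟨i, h⟩ 0 := fun i h => dif_pos h
  have hu' : ∀ i (h : i < t), u' i = u ⟨i, h⟩ := fun i h => dif_pos h
  obtain ⟨ι, hι, pos, hcard, ⟨D, N0, hpot⟩, hposf, hinj⟩ :=
    tree (k := k) (K := K) (q := q) t L s₀ Q' s' w' m' u'
      (fun i hi => by rw [hm' i hi]; exact sub_self _)
      (fun i hi j => by
        rw [hm' i hi, hs' i hi, hw' i hi]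
        have e : w ⟨i, hi⟩ 0 + (w ⟨i, hi⟩ j - w ⟨i, hi⟩ 0) = w ⟨i, hi⟩ j := by ring
        show w ⟨i, hi⟩ 0 + (w ⟨i, hi⟩ j - w ⟨i, hi⟩ 0) ≡ w ⟨i, hi⟩ j [ZMOD (Q' i : ℕ)]
        rw [e])
      (fun i hi => by rw [hQ' i hi, hw' i hi]; exact hcon _)
      W hW0 (hLM.trans hMW) (fun i hi => by rw [hQ' i hi]; exact (hQM _).trans hMW)
      (fun i hi => by rw [hQ' i hi, hu' i hi]; exact hu1 _)
      (fun i hi j hj hji => by
        rw [hQ' j hj, hu' i hi]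
        exact hu2 ⟨i, hi⟩ ⟨j, hj⟩ (fun h => hji (congrArg Fin.val h)))
      (fun i hi => by rw [hu' i hi]; exact hu3 _) B0 hB0W hB0i t le_rfl
  set V : ι × Fin q → Finset ℤ := fun z => (B0 z.2).image (fun β => β + pos z.1) with hV
  have hVmem : ∀ z h, h ∈ V z ↔ ∃ β ∈ B0 z.2, β + pos z.1 = h := by
    intro z h
    rw [hV]
    exact mem_image
  -- the elements of the cells
  have hVf : ∀ z, ∀ h ∈ V z, ∃ f : Fin t → Fin (k + 1),
      (W : ℤ) ∣ h - ∑ i, u i * (w i (f i) - w i 0) := by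
    intro z h hh
    obtain ⟨β, hβ, rfl⟩ := (hVmem z h).1 hh
    obtain ⟨f, hf⟩ := hposf z.1
    refine ⟨fun i => f i, ?_⟩
    have h1 : ∑ i ∈ range t, u' i * m' i (f i) = ∑ i : Fin t, u i * (w i (f i) - w i 0) := by
      rw [Finset.sum_range]
      refine Finset.sum_congr rfl fun i _ => ?_
      rw [hu' i i.2, hm' i i.2]
    rw [h1] at hf
    have e : β + pos z.1 - ∑ i : Fin t, u i * (w i (f i) - w i 0) =
        β + (pos z.1 - ∑ i : Fin t, u i * (w i (f i) - w i 0)) := by ring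
    rw [e]
    exact dvd_add (hB0W _ β hβ) hf
  -- the class of `N`
  set Cc : ℤ := s₀ + ∑ i, (w i 0 - s₀) * u i with hC
  have hCL : (L : ℤ) ∣ Cc - s₀ := by
    have e : Cc - s₀ = ∑ i, (w i 0 - s₀) * u i := by
      rw [hC]
      ring
    rw [e]
    exact Finset.dvd_sum fun i _ => dvd_mul_of_dvd_right (hu3 i) _
  have hCQ : ∀ i, (Q i : ℤ) ∣ Cc - w i 0 := by
    intro i
    have e : Cc - w i 0 = (w i 0 - s₀) * (u i - 1) +
        ∑ j ∈ univ.erase i, (w j 0 - s₀) * u j := by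
      rw [hC, ← Finset.add_sum_erase univ (fun j => (w j 0 - s₀) * u j) (mem_univ i)]
      ring
    rw [e]
    refine dvd_add (dvd_mul_of_dvd_right (hu1 i) _) (Finset.dvd_sum fun j hj => ?_)
    exact dvd_mul_of_dvd_right (hu2 j i (fun h => (mem_erase.1 hj).1 h.symm)) _
  have hM0Z : (0 : ℤ) < M := by exact_mod_cast hM0
  obtain ⟨c₀, hc₀⟩ : ∃ c₀ : ℕ, (c₀ : ℤ) = Cc % M :=
    ⟨(Cc % M).toNat, Int.toNat_of_nonneg (Int.emod_nonneg _ hM0Z.ne')⟩
  have hc₀M : (M : ℤ) ∣ c₀ - Cc := by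
    rw [hc₀]
    have h1 : (M : ℤ) ∣ Cc - Cc % M := Int.dvd_self_sub_emod
    have e : Cc % M - Cc = -(Cc - Cc % M) := by ring
    rw [e]
    exact (dvd_neg).2 h1
  have hLMz : (L : ℤ) ∣ (M : ℤ) := by exact_mod_cast hLM
  have hQMz : ∀ i, (Q i : ℤ) ∣ (M : ℤ) := fun i => by exact_mod_cast hQM i
  have hMWz : (M : ℤ) ∣ (W : ℤ) := by exact_mod_cast hMW
  have hc₀L : (L : ℤ) ∣ c₀ - s₀ := by
    have h1 := dvd_add (hLMz.trans hc₀M) hCL
    have e : (c₀ : ℤ) - Cc + (Cc - s₀) = c₀ - s₀ := by ring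
    rwa [e] at h1
  have hc₀Q : ∀ i, (Q i : ℤ) ∣ c₀ - w i 0 := by
    intro i
    have h1 := dvd_add ((hQMz i).trans hc₀M) (hCQ i)
    have e : (c₀ : ℤ) - Cc + (Cc - w i 0) = c₀ - w i 0 := by ring
    rwa [e] at h1
  have hcop : ∀ d, ∀ h ∈ V d, IsCoprime ((c₀ : ℤ) + h) (M : ℤ) := by
    intro d h hh
    obtain ⟨f, hf⟩ := hVf d h hh
    have hfL : (L : ℤ) ∣ h := by
      have h1 : (L : ℤ) ∣ ∑ i, u i * (w i (f i) - w i 0) :=
        Finset.dvd_sum fun i _ => dvd_mul_of_dvd_left (hu3 i) _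
      have h2 := dvd_add ((hLMz.trans hMWz).trans hf) h1
      have e : h - ∑ i, u i * (w i (f i) - w i 0) + ∑ i, u i * (w i (f i) - w i 0) = h := by ring
      rwa [e] at h2
    have hfQ : ∀ i, (Q i : ℤ) ∣ h - (w i (f i) - w i 0) := by
      intro i
      have h1 : (Q i : ℤ) ∣ ∑ i, u i * (w i (f i) - w i 0) - (w i (f i) - w i 0) := by
        have e : ∑ j, u j * (w j (f j) - w j 0) - (w i (f i) - w i 0) =
            (u i - 1) * (w i (f i) - w i 0) +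
            ∑ j ∈ univ.erase i, u j * (w j (f j) - w j 0) := by
          rw [← Finset.add_sum_erase univ (fun j => u j * (w j (f j) - w j 0)) (mem_univ i)]
          ring
        rw [e]
        refine dvd_add (dvd_mul_of_dvd_left (hu1 i) _) (Finset.dvd_sum fun j hj => ?_)
        exact dvd_mul_of_dvd_left (hu2 j i (fun h => (mem_erase.1 hj).1 h.symm)) _
      have h2 := dvd_add (((hQMz i).trans hMWz).trans hf) h1
      have e : h - ∑ i, u i * (w i (f i) - w i 0) +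
          (∑ i, u i * (w i (f i) - w i 0) - (w i (f i) - w i 0)) = h - (w i (f i) - w i 0) := by ring
      rwa [e] at h2
    rw [hM]
    push_cast
    refine IsCoprime.mul_right ?_ (IsCoprime.prod_right fun i _ => ?_)
    · refine cop_of_dvd (Nat.isCoprime_iff_coprime.2 hs₀) ?_
      have h1 := dvd_add hc₀L hfL
      have e : (c₀ : ℤ) - s₀ + h = c₀ + h - s₀ := by ring
      rwa [e] at h1
    · refine cop_of_dvd (hw i (f i)) ?_
      have h1 := dvd_add (hc₀Q i) (hfQ i)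
      have e : (c₀ : ℤ) - w i 0 + (h - (w i (f i) - w i 0)) = c₀ + h - w i (f i) := by ring
      rwa [e] at h1
  have hVcard : ∀ d, (V d).card = sc := by
    intro d
    rw [hV]
    show ((B0 d.2).image (fun β => β + pos d.1)).card = sc
    rw [card_image_of_injective _ (add_left_injective _), hB0card]
  have hcardV : Fintype.card (ι × Fin q) = A * q := by
    rw [Fintype.card_prod, Fintype.card_fin, hcard, ← hA]
  have hVsum : ∑ d, (V d).card ≤ K' := by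
    rw [Finset.sum_congr rfl fun d _ => hVcard d, sum_const, card_univ, smul_eq_mul, hcardV, ← hK']
  have hVadm : ∀ p : ℕ, p.Prime → ∃ a : ℤ, ∀ d, ∀ h ∈ V d, ¬ (p : ℤ) ∣ a + h := by
    intro p hp
    by_cases hpM : p ∣ M
    · refine ⟨c₀, fun d h hh hdv => ?_⟩
      have hpMz : (p : ℤ) ∣ (M : ℤ) := by exact_mod_cast hpM
      have h1 := (hcop d h hh).isUnit_of_dvd' hdv hpMz
      have h2 : p = 1 := by exact_mod_cast Int.isUnit_iff_natAbs_eq.1 h1
      exact hp.one_lt.ne' h2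
    · by_cases hpK : p ≤ K'
      · refine ⟨1, fun d h hh hdv => ?_⟩
        obtain ⟨f, hf⟩ := hVf d h hh
        have hpW : (p : ℤ) ∣ (W : ℤ) := by
          have h2 : p ∣ W := dvd_mul_of_dvd_right (Nat.dvd_factorial hp.pos hpK) M
          exact_mod_cast h2
        have h1 : (p : ℤ) ∣ ∑ i, u i * (w i (f i) - w i 0) :=
          Finset.dvd_sum fun i _ => dvd_mul_of_dvd_left
            (hu4 i p hp hpK (fun h => hpM (h.trans (hQM i)))) _
        have h2 := dvd_add (hpW.trans hf) h1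
        have e : h - ∑ i, u i * (w i (f i) - w i 0) + ∑ i, u i * (w i (f i) - w i 0) = h := by ring
        rw [e] at h2
        have h4 : (p : ℤ) ∣ 1 := (dvd_add_left h2).1 hdv
        have h5 : p ∣ 1 := by exact_mod_cast h4
        exact hp.one_lt.ne' (Nat.dvd_one.1 h5)
      · exact Pool.Agent.H21.LP.adm_big K' V hVsum p hp hpK
  obtain ⟨T, μ, hT, hμ, hsum, hhit⟩ := hcells (ι × Fin q) V hcardV hVcard (by
      intro d d' hdd
      rw [disjoint_left]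
      intro h hh hh'
      obtain ⟨β, hβ, h1⟩ := (hVmem d h).1 hh
      obtain ⟨β', hβ', h2⟩ := (hVmem d' h).1 hh'
      obtain ⟨h3, h4⟩ := hinj d.1 d'.1 d.2 d'.2 β hβ β' hβ' (h1.trans h2.symm)
      exact hdd (Prod.ext h3 h4))
    hVadm M c₀ hM0 hcop D N0
  -- double counting
  have h1 : ∀ N ∈ T, (hits B0 pos N : ℝ) ≤ q * (k : ℝ) ^ t + K * A := by
    intro N hN
    obtain ⟨h2, h3, h4⟩ := hT N hN
    have h3M : (M : ℤ) ∣ N - c₀ := by
      have h5 : (c₀ : ℤ) ≡ (N : ℤ) [ZMOD M] := (Int.natCast_modEq_iff.2 h3).symm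
      exact (Int.modEq_iff_dvd).1 h5
    have h3L : (N : ℤ) ≡ s₀ [ZMOD L] := by
      rw [Int.modEq_comm, Int.modEq_iff_dvd]
      have h6 := dvd_add (hLMz.trans h3M) hc₀L
      have e : (N : ℤ) - c₀ + (c₀ - s₀) = N - s₀ := by ring
      rwa [e] at h6
    have h3Q : ∀ i < t, (N : ℤ) ≡ s' i [ZMOD Q' i] := by
      intro i hi
      rw [hQ' i hi, hs' i hi, Int.modEq_comm, Int.modEq_iff_dvd]
      have h6 := dvd_add ((hQMz ⟨i, hi⟩).trans h3M) (hc₀Q ⟨i, hi⟩)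
      have e : (N : ℤ) - c₀ + (c₀ - w ⟨i, hi⟩ 0) = N - w ⟨i, hi⟩ 0 := by ring
      rwa [e] at h6
    have h5 := hpot N h2.le h3L h3Q (by
      intro b hb hp
      obtain ⟨d, hd⟩ := h4 b hb hp
      obtain ⟨β, hβ, he⟩ := (hVmem d b).1 hd
      exact ⟨d.1, d.2, β, hβ, he.symm⟩)
    have h6 := h5.trans (FF_le k K q t)
    rw [← hA] at h6
    exact_mod_cast h6
  have h2 : ∑ N ∈ T, μ N * (hits B0 pos N : ℝ) =
      ∑ z : ι × Fin q, ∑ N ∈ T.filter (fun N => ∃ b ∈ V z, PP N b), μ N := by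
    have h3 : ∀ N, (hits B0 pos N : ℝ) =
        ∑ z : ι × Fin q, if ∃ b ∈ V z, PP N b then (1 : ℝ) else 0 := by
      intro N
      unfold hits
      rw [Fintype.sum_prod_type]
      push_cast
      refine sum_congr rfl fun d _ => sum_congr rfl fun i _ => ?_
      have h4 : (∃ β ∈ B0 i, PP N (β + pos d)) ↔ ∃ b ∈ V (d, i), PP N b := by
        constructor
        · rintro ⟨β, hβ, hp⟩
          exact ⟨_, (hVmem (d, i) _).2 ⟨β, hβ, rfl⟩, hp⟩
        · rintro ⟨b, hb, hp⟩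
          obtain ⟨β, hβ, rfl⟩ := (hVmem (d, i) b).1 hb
          exact ⟨β, hβ, hp⟩
      by_cases h5 : ∃ b ∈ V (d, i), PP N b
      · rw [if_pos h5, if_pos (h4.2 h5)]
      · rw [if_neg h5, if_neg (fun h => h5 (h4.1 h))]
    simp_rw [h3, Finset.mul_sum, Finset.sum_filter]
    rw [Finset.sum_comm]
    refine Finset.sum_congr rfl fun z _ => Finset.sum_congr rfl fun N _ => ?_
    split_ifs <;> simp
  have h3 : ((A * q : ℕ) : ℝ) * (13 / 50 - 1 / (100 * A)) ≤ ∑ N ∈ T, μ N * (hits B0 pos N : ℝ) := by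
    rw [h2]
    calc ((A * q : ℕ) : ℝ) * (13 / 50 - 1 / (100 * A)) =
        ∑ _z : ι × Fin q, (13 / 50 - 1 / (100 * (A : ℝ))) := by
          rw [sum_const, card_univ, hcardV, nsmul_eq_mul]
      _ ≤ _ := sum_le_sum fun z _ => hhit z
  have h4 : ∑ N ∈ T, μ N * (hits B0 pos N : ℝ) ≤ q * (k : ℝ) ^ t + K * A := by
    calc ∑ N ∈ T, μ N * (hits B0 pos N : ℝ) ≤ ∑ N ∈ T, μ N * (q * (k : ℝ) ^ t + K * A) :=
          sum_le_sum fun N hN => mul_le_mul_of_nonneg_left (h1 N hN) (hμ N)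
      _ = q * (k : ℝ) ^ t + K * A := by rw [← Finset.sum_mul, hsum, one_mul]
  have h5 : 50 * (k : ℝ) ^ t + 1 ≤ 13 * A := by
    have h6 : 50 * k ^ t + 1 ≤ 13 * A := by
      rw [hA]
      exact hkt
    exact_mod_cast h6
  have h6 : (q : ℝ) = 100 * K * A + 1 := by
    rw [hq]
    push_cast
    ring
  have h7 : ((A * q : ℕ) : ℝ) * (13 / 50 - 1 / (100 * A)) = q * (13 * A / 50) - q / 100 := by
    push_cast
    have : (A : ℝ) ≠ 0 := by positivity
    field_simp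
  have h8 := h3.trans h4
  rw [h7] at h8
  have hq0 : (0 : ℝ) < q := by exact_mod_cast hq1
  have h9 : (q : ℝ) * (50 * (k : ℝ) ^ t + 1) ≤ q * (13 * A) := mul_le_mul_of_nonneg_left h5 hq0.le
  have h10 : (0 : ℝ) ≤ K * A := by positivity
  nlinarith

end Pool.Agent.H48.ST
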