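import Pool.Agent.H48.ST.Tree

/-!
# [H48 ST REC] recursion over the levels; bad vectors in given classes
-/

set_option autoImplicit false

namespace Pool.Agent.H48.ST

open Finset Pool.Agent.H30.CP Pool.Agent.H21.CG

/-- the bound after `n` levels -/
def FF (k K q : ℕ) : ℕ → ℕ
  | 0 => q
  | n + 1 => k * FF k K q n + K

theorem FF_le (k K q : ℕ) : ∀ n, FF k K q n ≤ q * k ^ n + K * (k + 1) ^ n
  | 0 => by
    unfold FF
    simp
  | n + 1 => by
    have h1 := FF_le k K q n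
    have h2 : 1 ≤ (k + 1) ^ n := Nat.one_le_pow _ _ (Nat.succ_pos k)
    unfold FF
    calc k * FF k K q n + K ≤ k * (q * k ^ n + K * (k + 1) ^ n) + K * (k + 1) ^ n := by
          refine Nat.add_le_add (Nat.mul_le_mul_left k h1) ?_
          exact Nat.le_mul_of_pos_right K h2
      _ = q * k ^ (n + 1) + K * (k + 1) ^ (n + 1) := by ring

/-- bad vectors exist in given classes, with given separation -/
def Badx (k K L s₀ Q : ℕ) (w : Fin (k + 1) → ℤ) : Prop :=
  ∀ (W : ℕ), 0 < W → ∀ c : Fin (k + 1) → ℤ, (W : ℤ) ∣ c 0 → ∀ C G : ℕ, W ≤ C → 2 * C ≤ G →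
    ∃ x : Fin (k + 1) → ℤ, x 0 = 0 ∧ (∀ j, (W : ℤ) ∣ x j - c j) ∧
      (∀ j : Fin k, x j.castSucc + G < x j.succ) ∧ ∃ Nx : ℕ, ∀ N ≥ Nx, ¬ Cl k K L s₀ Q C w x N

theorem tree {k K q : ℕ} (t : ℕ) (L s₀ : ℕ) (Q : ℕ → ℕ) (s : ℕ → ℤ) (w m : ℕ → Fin (k + 1) → ℤ)
    (u : ℕ → ℤ) (hm0 : ∀ i < t, m i 0 = 0)
    (hw : ∀ i < t, ∀ j, s i + m i j ≡ w i j [ZMOD Q i])
    (hbad : ∀ i < t, Badx k K L s₀ (Q i) (w i))
    (W : ℕ) (hW : 0 < W) (hLW : L ∣ W) (hQW : ∀ i < t, Q i ∣ W)
    (hu1 : ∀ i < t, (Q i : ℤ) ∣ u i - 1) (hu2 : ∀ i < t, ∀ j < t, j ≠ i → (Q j : ℤ) ∣ u i)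
    (hu3 : ∀ i < t, (L : ℤ) ∣ u i) (B0 : Fin q → Finset ℤ) (hB0 : ∀ i, ∀ β ∈ B0 i, (W : ℤ) ∣ β)
    (hBi : ∀ i i', ∀ β ∈ B0 i, β ∈ B0 i' → i = i') :
    ∀ n ≤ t, ∃ (ι : Type) (_ : Fintype ι) (pos : ι → ℤ), Fintype.card ι = (k + 1) ^ n ∧
      (∃ D N0, Pot L s₀ Q s n B0 pos (FF k K q n) D N0) ∧
      (∀ d, ∃ f : ℕ → Fin (k + 1), (W : ℤ) ∣ pos d - ∑ i ∈ range n, u i * m i (f i)) ∧
      ∀ d d' i i', ∀ β ∈ B0 i, ∀ β' ∈ B0 i', β + pos d = β' + pos d' → d = d' ∧ i = i' := by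
  classical
  intro n
  have hLWz : (L : ℤ) ∣ (W : ℤ) := by exact_mod_cast hLW
  have hQWz : ∀ i < t, (Q i : ℤ) ∣ (W : ℤ) := fun i hi => by exact_mod_cast hQW i hi
  induction n with
  | zero =>
    intro _
    refine ⟨Unit, inferInstance, fun _ => 0, by simp, ⟨0, 0, fun N _ _ _ _ => ?_⟩, fun d => ⟨fun _ => 0, ?_⟩, ?_⟩
    · unfold hits FF
      rw [Fintype.sum_unique]
      calc ∑ i : Fin q, (if ∃ β ∈ B0 i, PP N (β + 0) then 1 else 0) ≤ ∑ _i : Fin q, 1 :=
            sum_le_sum fun i _ => by split_ifs <;> simp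
        _ = q := by simp
    · simp
    · intro d d' i i' β hβ β' hβ' h
      have h1 : β = β' := by linarith
      exact ⟨rfl, hBi i i' β hβ (h1 ▸ hβ')⟩
  | succ n ih =>
    intro hnt
    have hn : n < t := hnt
    obtain ⟨ι, hι, pos, hcard, ⟨D, N0, hpot⟩, hposf, hinj⟩ := ih hn.le
    have hposL : ∀ d, (L : ℤ) ∣ pos d := by
      intro d
      obtain ⟨f, hf⟩ := hposf d
      have h1 : (L : ℤ) ∣ ∑ i ∈ range n, u i * m i (f i) :=
        Finset.dvd_sum fun i hi => dvd_mul_of_dvd_left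
          (hu3 i (lt_trans (mem_range.1 hi) hn)) _
      have h2 := dvd_add (hLWz.trans hf) h1
      have e : pos d - ∑ i ∈ range n, u i * m i (f i) + ∑ i ∈ range n, u i * m i (f i) = pos d := by
        ring
      rwa [e] at h2
    have hposQ : ∀ d, (Q n : ℤ) ∣ pos d := by
      intro d
      obtain ⟨f, hf⟩ := hposf d
      have h1 : (Q n : ℤ) ∣ ∑ i ∈ range n, u i * m i (f i) :=
        Finset.dvd_sum fun i hi => dvd_mul_of_dvd_left
          (hu2 i (lt_trans (mem_range.1 hi) hn) n hn (mem_range.1 hi).ne') _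
      have h2 := dvd_add ((hQWz n hn).trans hf) h1
      have e : pos d - ∑ i ∈ range n, u i * m i (f i) + ∑ i ∈ range n, u i * m i (f i) = pos d := by
        ring
      rwa [e] at h2
    obtain ⟨R, hRd⟩ : ∃ R : ℕ, R = ∑ d : ι, ∑ i : Fin q, ∑ β ∈ B0 i, (β + pos d).natAbs := ⟨_, rfl⟩
    have hR : ∀ d i, ∀ β ∈ B0 i, |β + pos d| ≤ R := by
      intro d i β hβ
      have h1 : (β + pos d).natAbs ≤ ∑ β ∈ B0 i, (β + pos d).natAbs :=
        Finset.single_le_sum (f := fun β => (β + pos d).natAbs) (fun _ _ => Nat.zero_le _) hβ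
      have h2 : ∑ β ∈ B0 i, (β + pos d).natAbs ≤ ∑ i : Fin q, ∑ β ∈ B0 i, (β + pos d).natAbs :=
        Finset.single_le_sum (f := fun i => ∑ β ∈ B0 i, (β + pos d).natAbs)
          (fun _ _ => Nat.zero_le _) (Finset.mem_univ i)
      have h3 : ∑ i : Fin q, ∑ β ∈ B0 i, (β + pos d).natAbs ≤ R := by
        rw [hRd]
        exact Finset.single_le_sum (f := fun d => ∑ i : Fin q, ∑ β ∈ B0 i, (β + pos d).natAbs)
          (fun _ _ => Nat.zero_le _) (Finset.mem_univ d)
      have h4 : (β + pos d).natAbs ≤ R := by omega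
      rw [Int.abs_eq_natAbs]
      exact_mod_cast h4
    obtain ⟨x, hx0, hxW, hxG, Nx, hx⟩ := hbad n hn W hW (fun j => u n * m n j) (by
      show (W : ℤ) ∣ u n * m n 0
      rw [hm0 n hn, mul_zero]
      exact dvd_zero _) (R + W) (2 * (R + W) + D + R) (Nat.le_add_left _ _) (by omega)
    have hLx : ∀ j, (L : ℤ) ∣ x j := by
      intro j
      have h2 := dvd_add (hLWz.trans (hxW j)) (dvd_mul_of_dvd_left (hu3 n hn) (m n j))
      have e : x j - u n * m n j + u n * m n j = x j := by ring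
      rwa [e] at h2
    have hQx : ∀ i < n, ∀ j, (Q i : ℤ) ∣ x j := by
      intro i hi j
      have h2 := dvd_add ((hQWz i (lt_trans hi hn)).trans (hxW j))
        (dvd_mul_of_dvd_left (hu2 n hn i (lt_trans hi hn) hi.ne) (m n j))
      have e : x j - u n * m n j + u n * m n j = x j := by ring
      rwa [e] at h2
    have hQn : ∀ j, x j ≡ m n j [ZMOD Q n] := by
      intro j
      rw [Int.modEq_comm, Int.modEq_iff_dvd]
      have h2 := dvd_add ((hQWz n hn).trans (hxW j)) (dvd_mul_of_dvd_left (hu1 n hn) (m n j))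
      have e : x j - u n * m n j + (u n - 1) * m n j = x j - m n j := by ring
      rwa [e] at h2
    have hst := pot_step hpot hLW (hQW n hn) hB0 hinj hR hposL hposQ (Nat.le_add_right R W) hx0
      (G := ((2 * (R + W) + D + R : ℕ) : ℤ)) le_rfl hxG hLx hQx hQn (hw n hn) hx
    refine ⟨Fin (k + 1) × ι, inferInstance, fun z => x z.1 + pos z.2, ?_, hst, ?_, ?_⟩
    · rw [Fintype.card_prod, Fintype.card_fin, hcard, pow_succ, mul_comm]
    · rintro ⟨j, d⟩
      obtain ⟨f, hf⟩ := hposf d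
      refine ⟨fun i => if i = n then j else f i, ?_⟩
      show (W : ℤ) ∣ x j + pos d - ∑ i ∈ range (n + 1), u i * m i (if i = n then j else f i)
      rw [sum_range_succ, if_pos rfl]
      have h1 : ∑ i ∈ range n, u i * m i (if i = n then j else f i) =
          ∑ i ∈ range n, u i * m i (f i) := by
        refine sum_congr rfl fun i hi => ?_
        rw [if_neg (mem_range.1 hi).ne]
      rw [h1]
      have e : x j + pos d - (∑ i ∈ range n, u i * m i (f i) + u n * m n j) =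
          (x j - u n * m n j) + (pos d - ∑ i ∈ range n, u i * m i (f i)) := by ring
      rw [e]
      exact dvd_add (hxW j) hf
    · rintro ⟨j, d⟩ ⟨j', d'⟩ i i' β hβ β' hβ' h
      have h' : β + (x j + pos d) = β' + (x j' + pos d') := h
      have hj : j = j' := by
        by_contra hne
        have h1 := x_sep_abs (Int.natCast_nonneg _) hxG hne
        have h2 := hR d i β hβ
        have h3 := hR d' i' β' hβ'
        have e : x j - x j' = (β' + pos d') - (β + pos d) := by linarith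
        rw [e] at h1
        have h4 := abs_sub (β' + pos d') (β + pos d)
        push_cast at h1
        have h5 : (0 : ℤ) ≤ W := Int.natCast_nonneg _
        have h6 : (0 : ℤ) ≤ D := Int.natCast_nonneg _
        have h7 : (0 : ℤ) ≤ R := Int.natCast_nonneg _
        linarith
      subst hj
      obtain ⟨h1, h2⟩ := hinj d d' i i' β hβ β' hβ' (by linarith)
      exact ⟨by rw [h1], h2⟩

end Pool.Agent.H48.ST
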