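import Pool.Agent.H48.ST.Df

/-!
# [H48 ST TREE] the `(k+1)`-ary tree: one bad modulus for each level

`hits B0 pos N`: the number of pairs (leaf, cell) with a prime.  If at a node every child has at least `K` hits, the strings are
there (`Cl`).  So with a bad modulus at the node some child has less than `K`: `F (n+1) = k F n + K`.
-/

set_option autoImplicit false

namespace Pool.Agent.H48.ST

open Finset Pool.Agent.H30.CP Pool.Agent.H21.CG

variable {k q : ℕ} {ι : Type} [Fintype ι]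

open Classical in
/-- the number of pairs (leaf, cell) with a prime -/
noncomputable def hits (B0 : Fin q → Finset ℤ) (pos : ι → ℤ) (N : ℕ) : ℕ :=
  ∑ d, ∑ i, if ∃ β ∈ B0 i, PP N (β + pos d) then 1 else 0

/-- the potential inequality -/
def Pot (L s₀ : ℕ) (Q : ℕ → ℕ) (s : ℕ → ℤ) (n : ℕ) (B0 : Fin q → Finset ℤ) (pos : ι → ℤ)
    (F D N0 : ℕ) : Prop :=
  ∀ N ≥ N0, (N : ℤ) ≡ s₀ [ZMOD L] → (∀ i < n, (N : ℤ) ≡ s i [ZMOD Q i]) →
    (∀ b : ℤ, |b| ≤ D → PP N b → ∃ d, ∃ i, ∃ β ∈ B0 i, b = β + pos d) → hits B0 pos N ≤ F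

theorem x_sep {x : Fin (k + 1) → ℤ} {G : ℤ} (hG : 0 ≤ G)
    (hx : ∀ j : Fin k, x j.castSucc + G < x j.succ) {i j : Fin (k + 1)} (hij : i < j) :
    x i + G < x j := by
  have hmono : StrictMono x := Fin.strictMono_iff_lt_succ.2 fun j => by
    have := hx j
    linarith
  have hi : i ≠ Fin.last k := (lt_of_lt_of_le hij (Fin.le_last j)).ne
  obtain ⟨i', rfl⟩ := Fin.exists_castSucc_eq.2 hi
  have h1 : i'.succ ≤ j := Fin.castSucc_lt_iff_succ_le.1 hij
  exact lt_of_lt_of_le (hx i') (hmono.monotone h1)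

theorem x_sep_abs {x : Fin (k + 1) → ℤ} {G : ℤ} (hG : 0 ≤ G)
    (hx : ∀ j : Fin k, x j.castSucc + G < x j.succ) {i j : Fin (k + 1)} (hij : i ≠ j) :
    G < |x i - x j| := by
  rcases lt_or_gt_of_ne hij with h | h
  · have h1 := x_sep hG hx h
    rw [lt_abs]
    right
    linarith
  · have h1 := x_sep hG hx h
    rw [lt_abs]
    left
    linarith

/-- one more level -/
theorem pot_step {K L s₀ : ℕ} {Q : ℕ → ℕ} {s : ℕ → ℤ} {n : ℕ} {B0 : Fin q → Finset ℤ} {pos : ι → ℤ}
    {F D N0 : ℕ} (hpot : Pot L s₀ Q s n B0 pos F D N0) {W : ℕ} (hLW : L ∣ W) (hQW : Q n ∣ W)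
    (hB : ∀ i, ∀ β ∈ B0 i, (W : ℤ) ∣ β)
    (hinj : ∀ d d' i i', ∀ β ∈ B0 i, ∀ β' ∈ B0 i', β + pos d = β' + pos d' → d = d' ∧ i = i')
    {R : ℕ} (hR : ∀ d i, ∀ β ∈ B0 i, |β + pos d| ≤ R)
    (hpL : ∀ d, (L : ℤ) ∣ pos d) (hpQ : ∀ d, (Q n : ℤ) ∣ pos d)
    {C : ℕ} (hRC : R ≤ C) {w x m : Fin (k + 1) → ℤ} (hx0 : x 0 = 0) {G : ℤ}
    (hG : ((2 * C + D + R : ℕ) : ℤ) ≤ G)
    (hxG : ∀ j : Fin k, x j.castSucc + G < x j.succ) (hxL : ∀ j, (L : ℤ) ∣ x j)
    (hxQ : ∀ i < n, ∀ j, (Q i : ℤ) ∣ x j) (hxm : ∀ j, x j ≡ m j [ZMOD Q n])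
    (hw : ∀ j, s n + m j ≡ w j [ZMOD Q n]) {Nx : ℕ}
    (hbad : ∀ N ≥ Nx, ¬ Cl k K L s₀ (Q n) C w x N) :
    ∃ D' N0' : ℕ, Pot L s₀ Q s (n + 1) B0 (fun z : Fin (k + 1) × ι => x z.1 + pos z.2)
      (k * F + K) D' N0' := by
  classical
  have hG0 : 0 ≤ G := le_trans (Int.natCast_nonneg _) hG
  have hLWz : (L : ℤ) ∣ (W : ℤ) := by exact_mod_cast hLW
  have hQWz : (Q n : ℤ) ∣ (W : ℤ) := by exact_mod_cast hQW
  have hxnn : ∀ j, 0 ≤ x j := by
    intro j
    rcases eq_or_lt_of_le (Fin.zero_le j) with h | h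
    · rw [← h, hx0]
    · have := x_sep hG0 hxG h
      rw [hx0] at this
      linarith
  obtain ⟨X, hX⟩ : ∃ X : ℕ, X = (x (Fin.last k)).toNat := ⟨_, rfl⟩
  have hXl : (X : ℤ) = x (Fin.last k) := by
    rw [hX]
    exact Int.toNat_of_nonneg (hxnn _)
  have hXb : ∀ j, x j ≤ X := by
    intro j
    rw [hXl]
    rcases eq_or_lt_of_le (Fin.le_last j) with h | h
    · rw [h]
    · have := x_sep hG0 hxG h
      linarith
  refine ⟨X + D + C, max N0 Nx, fun N hN hNL hNQ hex => ?_⟩
  have hN0 : N0 ≤ N := le_trans (le_max_left _ _) hN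
  have hNx : Nx ≤ N := le_trans (le_max_right _ _) hN
  -- the shifted numbers
  obtain ⟨N', hN'⟩ : ∃ N' : Fin (k + 1) → ℕ, ∀ j, (N' j : ℤ) = N + x j :=
    ⟨fun j => N + (x j).toNat, fun j => by
      push_cast
      rw [Int.toNat_of_nonneg (hxnn j)]⟩
  have hPP : ∀ j (b : ℤ), PP (N' j) b ↔ PP N (x j + b) := by
    intro j b
    unfold PP
    rw [hN']
    have e : (N : ℤ) + x j + b = N + (x j + b) := by ring
    rw [e]
  -- an element of the cells near `x j` belongs to the child `j`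
  have hchild : ∀ j (b : ℤ), |b| ≤ C + D → PP N (x j + b) →
      ∃ d, ∃ i, ∃ β ∈ B0 i, b = β + pos d := by
    intro j b hb hp
    have hb' := abs_le.1 hb
    obtain ⟨⟨j', d⟩, i, β, hβ, he⟩ := hex (x j + b) (by
      rw [abs_le]
      have h1 := hxnn j
      have h2 := hXb j
      push_cast
      constructor
      · linarith
      · linarith) hp
    have hj : j' = j := by
      by_contra hne
      have h1 := x_sep_abs hG0 hxG hne
      have h2 := hR d i β hβ
      have h3 : x j' - x j = b - (β + pos d) := by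
        have : x j + b = β + (x j' + pos d) := he
        linarith
      rw [h3] at h1
      have h4 := abs_sub b (β + pos d)
      push_cast at hG
      have h5 : (0 : ℤ) ≤ C := Int.natCast_nonneg _
      linarith
    refine ⟨d, i, β, hβ, ?_⟩
    have : x j + b = β + (x j' + pos d) := he
    rw [hj] at this
    linarith
  have hle : ∀ j, hits B0 pos (N' j) ≤ F := by
    intro j
    apply hpot (N' j)
    · have h1 : (N0 : ℤ) ≤ N' j := by
        rw [hN']
        have h2 := hxnn j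
        have h3 : (N0 : ℤ) ≤ N := by exact_mod_cast hN0
        linarith
      exact_mod_cast h1
    · rw [hN']
      have h1 : (N : ℤ) + x j ≡ s₀ + 0 [ZMOD L] := hNL.add ((Int.modEq_zero_iff_dvd).2 (hxL j))
      rwa [add_zero] at h1
    · intro i hi
      rw [hN']
      have h1 : (N : ℤ) + x j ≡ s i + 0 [ZMOD Q i] :=
        (hNQ i (lt_trans hi (Nat.lt_succ_self n))).add ((Int.modEq_zero_iff_dvd).2 (hxQ i hi j))
      rwa [add_zero] at h1
    · intro b hb hp
      refine hchild j b (hb.trans ?_) ((hPP j b).1 hp)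
      have : (0 : ℤ) ≤ C := Int.natCast_nonneg _
      linarith
  have hsum : hits B0 (fun z : Fin (k + 1) × ι => x z.1 + pos z.2) N =
      ∑ j, hits B0 pos (N' j) := by
    unfold hits
    rw [Fintype.sum_prod_type]
    refine sum_congr rfl fun j _ => sum_congr rfl fun d _ => sum_congr rfl fun i _ => ?_
    have h1 : (∃ β ∈ B0 i, PP N (β + (x j + pos d))) ↔ ∃ β ∈ B0 i, PP (N' j) (β + pos d) := by
      refine exists_congr fun β => and_congr_right fun _ => ?_
      rw [hPP]
      have e : β + (x j + pos d) = x j + (β + pos d) := by ring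
      rw [e]
    by_cases h2 : ∃ β ∈ B0 i, PP (N' j) (β + pos d)
    · rw [if_pos h2, if_pos (h1.2 h2)]
    · rw [if_neg h2, if_neg (fun h => h2 (h1.1 h))]
  obtain ⟨j0, hj0⟩ : ∃ j, hits B0 pos (N' j) < K := by
    by_contra hcon
    push Not at hcon
    refine hbad N hNx ⟨?_, ?_⟩
    · intro b hb1 hb2 hp
      rw [hx0] at hb1
      have hC0 : (0 : ℤ) ≤ C := Int.natCast_nonneg _
      have hD0 : (0 : ℤ) ≤ D := Int.natCast_nonneg _
      obtain ⟨⟨j, d⟩, i, β, hβ, he⟩ := hex b (by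
        rw [abs_le]
        rw [← hXl] at hb2
        push_cast
        constructor
        · have : (0 : ℤ) ≤ X := Int.natCast_nonneg _
          linarith
        · linarith) hp
      have he' : b = β + (x j + pos d) := he
      refine ⟨j, ?_, ?_, ?_⟩
      · have e : b - x j = β + pos d := by linarith
        rw [e]
        have h1 : (R : ℤ) ≤ C := by exact_mod_cast hRC
        exact (hR d i β hβ).trans h1
      · have h1 : (N : ℤ) ≡ s n [ZMOD Q n] := hNQ n (Nat.lt_succ_self n)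
        have h2 : β ≡ 0 [ZMOD Q n] := (Int.modEq_zero_iff_dvd).2 (hQWz.trans (hB i β hβ))
        have h3 : pos d ≡ 0 [ZMOD Q n] := (Int.modEq_zero_iff_dvd).2 (hpQ d)
        have h4 := (h1.add (h2.add ((hxm j).add h3))).trans (by
          have e : s n + (0 + (m j + 0)) = s n + m j := by ring
          rw [e])
        rw [he']
        exact h4.trans (hw j)
      · have h2 : β ≡ 0 [ZMOD L] := (Int.modEq_zero_iff_dvd).2 (hLWz.trans (hB i β hβ))
        have h3 : pos d ≡ 0 [ZMOD L] := (Int.modEq_zero_iff_dvd).2 (hpL d)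
        have h5 : x j ≡ 0 [ZMOD L] := (Int.modEq_zero_iff_dvd).2 (hxL j)
        have h4 := hNL.add (h2.add (h5.add h3))
        have e : ((s₀ : ℕ) : ℤ) + (0 + (0 + 0)) = s₀ := by ring
        rw [e] at h4
        rw [he']
        exact h4
    · intro j
      obtain ⟨P, hP⟩ : ∃ P : Finset (ι × Fin q),
          P = univ.filter (fun z => ∃ β ∈ B0 z.2, PP (N' j) (β + pos z.1)) := ⟨_, rfl⟩
      have hPc : hits B0 pos (N' j) = P.card := by
        rw [hP, card_filter, Fintype.sum_prod_type]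
        rfl
      have hch : ∀ z : ι × Fin q, ∃ b : ℤ, z ∈ P →
          ∃ β ∈ B0 z.2, b = x j + (β + pos z.1) ∧ PP (N' j) (β + pos z.1) := by
        intro z
        by_cases hz : z ∈ P
        · rw [hP, mem_filter] at hz
          obtain ⟨-, β, hβ, hp⟩ := hz
          exact ⟨_, fun _ => ⟨β, hβ, rfl, hp⟩⟩
        · exact ⟨0, fun h => absurd h hz⟩
      choose f hf using hch
      refine ⟨P.image f, ?_, ?_⟩
      · rw [card_image_of_injOn, ← hPc]
        · exact hcon j
        · intro z hz z' hz' hzz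
          obtain ⟨β, hβ, h1, -⟩ := hf z hz
          obtain ⟨β', hβ', h2, -⟩ := hf z' hz'
          have h3 : β + pos z.1 = β' + pos z'.1 := by
            have : f z = f z' := hzz
            linarith
          obtain ⟨h4, h5⟩ := hinj z.1 z'.1 z.2 z'.2 β hβ β' hβ' h3
          exact Prod.ext h4 h5
      · intro b hb
        obtain ⟨z, hz, rfl⟩ := mem_image.1 hb
        obtain ⟨β, hβ, h1, h2⟩ := hf z hz
        refine ⟨?_, ?_⟩
        · rw [h1]
          have e : x j + (β + pos z.1) - x j = β + pos z.1 := by ring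
          rw [e]
          have h3 : (R : ℤ) ≤ C := by exact_mod_cast hRC
          exact (hR z.1 z.2 β hβ).trans h3
        · rw [h1]
          exact (hPP j _).1 h2
  rw [hsum, ← add_sum_erase univ _ (mem_univ j0), add_comm]
  refine add_le_add ?_ hj0.le
  calc ∑ j ∈ univ.erase j0, hits B0 pos (N' j) ≤ ∑ _j ∈ univ.erase j0, F :=
        sum_le_sum fun j _ => hle j
    _ = k * F := by
        rw [sum_const, card_erase_of_mem (mem_univ _), card_univ, Fintype.card_fin, smul_eq_mul]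
        rfl

end Pool.Agent.H48.ST
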